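import Pool.Agent.H313.ZC.AP2

set_option autoImplicit false

/-! # The mean square distance of `M(e^v) e^(-v/2)` from a trigonometric polynomial -/

namespace Pool.Agent.H362.MW

open MeasureTheory Filter Topology Set
open Pool.Agent.W120.WM (NT)
open Pool.Agent.H295R2 (II JJ ww ee)
open Pool.Agent.TH223.AP
open Pool.Agent.H313.ZC (HS aa fz fz_mem fz_sum dist_fin exists_fz conv aa_eq)

lemma mn_re {G : ℝ → ℂ} (hG : Continuous G) (V : ℝ) :
    mn (fun v => (G v).re) V = ((∫ v in (0:ℝ)..V, G v) / (V : ℂ)).re := by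
  unfold mn
  rw [Complex.div_ofReal_re]
  congr 1
  have h := Complex.reCLM.intervalIntegral_comp_comm (μ := volume) (hG.intervalIntegrable 0 V)
  simpa using h

/-- mean square of a trigonometric polynomial -/
lemma parseval (K : Finset ℝ) (b : ℝ → ℂ) :
    Tendsto (mn fun v => ‖trig K b v‖ ^ 2) atTop (𝓝 (∑ l ∈ K, ‖b l‖ ^ 2)) := by
  classical
  have e : ∀ v, ‖trig K b v‖ ^ 2 =
      (∑ l ∈ K, ∑ m ∈ K, (b l * (starRingEnd ℂ) (b m)) * ex (l - m) v).re := by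
    intro v
    have h1 : ((‖trig K b v‖ ^ 2 : ℝ) : ℂ) = trig K b v * (starRingEnd ℂ) (trig K b v) := by
      rw [Complex.mul_conj, Complex.normSq_eq_norm_sq]
    have h2 : trig K b v * (starRingEnd ℂ) (trig K b v) =
        ∑ l ∈ K, ∑ m ∈ K, (b l * (starRingEnd ℂ) (b m)) * ex (l - m) v := by
      unfold trig
      rw [map_sum, Finset.sum_mul_sum]
      refine Finset.sum_congr rfl fun l _ => Finset.sum_congr rfl fun m _ => ?_
      rw [map_mul, ← Complex.exp_conj]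
      unfold ex
      have h3 : (starRingEnd ℂ) (Complex.I * m * v) = -(Complex.I * m * v) := by
        rw [map_mul, map_mul, Complex.conj_I, Complex.conj_ofReal, Complex.conj_ofReal]
        ring
      have h4 : Complex.I * ((l - m : ℝ) : ℂ) * v = Complex.I * l * v + -(Complex.I * m * v) := by
        push_cast; ring
      rw [h3, h4, Complex.exp_add]
      ring
    rw [← h2, ← h1, Complex.ofReal_re]
  have hc : Continuous fun v => ∑ l ∈ K, ∑ m ∈ K, (b l * (starRingEnd ℂ) (b m)) * ex (l - m) v :=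
    continuous_finsetSum _ fun l _ => continuous_finsetSum _ fun m _ => (ex_cont _).const_mul _ |>.congr fun v => rfl
  have e' : (fun v => ‖trig K b v‖ ^ 2) =
      fun v => (∑ l ∈ K, ∑ m ∈ K, (b l * (starRingEnd ℂ) (b m)) * ex (l - m) v).re := funext e
  have h5 : Tendsto (fun V : ℝ => ∑ l ∈ K, ∑ m ∈ K, (b l * (starRingEnd ℂ) (b m)) *
      ((∫ v in (0:ℝ)..V, ex (l - m) v) / (V : ℂ))) atTop
      (𝓝 (∑ l ∈ K, ∑ m ∈ K, (b l * (starRingEnd ℂ) (b m)) * (if l - m = 0 then 1 else 0))) :=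
    tendsto_finsetSum _ fun l _ => tendsto_finsetSum _ fun m _ => (mean_ex _).const_mul _
  have h6 : (∑ l ∈ K, ∑ m ∈ K, (b l * (starRingEnd ℂ) (b m)) * (if l - m = 0 then (1:ℂ) else 0)).re =
      ∑ l ∈ K, ‖b l‖ ^ 2 := by
    rw [Complex.re_sum]
    refine Finset.sum_congr rfl fun l hl => ?_
    rw [Finset.sum_eq_single l]
    · rw [sub_self, if_pos rfl, mul_one, Complex.mul_conj, Complex.ofReal_re, Complex.normSq_eq_norm_sq]
    · intro m _ hne
      rw [if_neg (sub_ne_zero.2 (Ne.symm hne)), mul_zero]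
    · exact fun h => absurd hl h
  have h7 := (Complex.continuous_re.tendsto _).comp h5
  rw [h6] at h7
  refine h7.congr fun V => ?_
  rw [e', mn_re hc]
  simp only [Function.comp]
  congr 1
  rw [intervalIntegral.integral_finset_sum]
  · rw [Finset.sum_div]
    refine Finset.sum_congr rfl fun l _ => ?_
    rw [intervalIntegral.integral_finset_sum]
    · rw [Finset.sum_div]
      refine Finset.sum_congr rfl fun m _ => ?_
      rw [intervalIntegral.integral_const_mul, mul_div_assoc]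
    · intro m _
      exact ((ex_cont _).const_mul _).intervalIntegrable _ _
  · intro l _
    exact (continuous_finsetSum _ fun m _ => (ex_cont _).const_mul _).intervalIntegrable _ _

lemma pw (x y : ℂ) {δ : ℝ} (h0 : 0 < δ) : (1 - δ) * ‖x‖ ^ 2 - 1 / δ * ‖y‖ ^ 2 ≤ ‖x + y‖ ^ 2 := by
  have h1 : ‖x‖ - ‖y‖ ≤ ‖x + y‖ := by
    have := norm_sub_le (x + y) y
    rw [add_sub_cancel_right] at this
    linarith
  have h1' : ‖y‖ - ‖x‖ ≤ ‖x + y‖ := by
    have := norm_sub_le (x + y) x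
    rw [add_sub_cancel_left] at this
    linarith
  have h2 : (‖x‖ - ‖y‖) ^ 2 ≤ ‖x + y‖ ^ 2 := by
    rw [← sq_abs (‖x‖ - ‖y‖)]
    refine pow_le_pow_left₀ (abs_nonneg _) (abs_le.2 ⟨by linarith, h1⟩) 2
  have h3 : 2 * (‖x‖ * ‖y‖) ≤ δ * ‖x‖ ^ 2 + 1 / δ * ‖y‖ ^ 2 := by
    have h4 : 0 ≤ 1 / δ * (δ * ‖x‖ - ‖y‖) ^ 2 := by positivity
    have h5 : 1 / δ * (δ * ‖x‖ - ‖y‖) ^ 2 = δ * ‖x‖ ^ 2 - 2 * (‖x‖ * ‖y‖) + 1 / δ * ‖y‖ ^ 2 := by
      field_simp
      ring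
    linarith
  nlinarith [sq_nonneg ‖y‖]

lemma mn_nonneg {g : ℝ → ℝ} (hg : ∀ v, 0 ≤ g v) {V : ℝ} (hV : 0 < V) : 0 ≤ mn g V := by
  unfold mn
  exact div_nonneg (intervalIntegral.integral_nonneg hV.le fun v _ => hg v) hV.le

/-- the distance when the weak Mertens hypothesis holds -/
lemma low_yes (hHS : HS) (hsum : Summable (fun ρ : NT => aa ρ)) (K : Finset ℝ) (a : ℝ → ℂ) (Z : Finset ℂ)
    (hZ : ∀ ρ ∈ Z, ρ ∈ NT ∧ ρ.im ∉ K) {c : ℝ} (hc : c < ∑ ρ ∈ Z, aa ρ) :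
    ∀ᶠ V : ℝ in atTop, c ≤ mn (fun v => ‖((ft v : ℝ) : ℂ) - trig K a v‖ ^ 2) V := by
  classical
  rcases lt_or_ge c 0 with hc0 | hc0
  · filter_upwards [eventually_gt_atTop (0:ℝ)] with V hV
    exact hc0.le.trans (mn_nonneg (fun v => by positivity) hV)
  set s : ℝ := ∑ ρ ∈ Z, aa ρ with hs
  have hs0 : 0 < s := lt_of_le_of_lt hc0 hc
  obtain ⟨δ, hδ0, hδ1, hδ⟩ : ∃ δ : ℝ, 0 < δ ∧ δ ≤ 1 ∧ c < (1 - δ) * s := by
    refine ⟨(s - c) / (2 * s), by apply div_pos <;> linarith, ?_, ?_⟩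
    · rw [div_le_one (by linarith)]; linarith
    · have : (1 - (s - c) / (2 * s)) * s = s - (s - c) / 2 := by field_simp
      rw [this]; linarith
  set c' : ℝ := (1 - δ) * s - c with hc'
  have hc'0 : 0 < c' := by rw [hc']; linarith
  set η : ℝ := c' * δ / 3 with hη
  have hη0 : 0 < η := by positivity
  have hη1 : η * (1 - δ) + 2 * η / δ ≤ c' := by
    have h1 : 2 * η / δ = 2 * c' / 3 := by rw [hη]; field_simp
    have h2 : η * (1 - δ) ≤ c' / 3 := by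
      rw [hη]
      have : δ * (1 - δ) ≤ 1 := by nlinarith
      nlinarith [mul_le_mul_of_nonneg_left this hc'0.le]
    linarith
  obtain ⟨s₀, hs₀⟩ := exists_fz hsum hη0
  set t : Finset NT := s₀ ∪ Z.attach.image (fun ρ => (⟨ρ.1, (hZ ρ.1 ρ.2).1⟩ : NT)) with ht
  have hts : s₀ ⊆ t := Finset.subset_union_left
  have hZt : Z ⊆ fz t := by
    intro ρ hρ
    unfold fz
    rw [Finset.mem_map]
    refine ⟨⟨ρ, (hZ ρ hρ).1⟩, ?_, rfl⟩
    rw [ht, Finset.mem_union]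
    right
    rw [Finset.mem_image]
    exact ⟨⟨ρ, hρ⟩, Finset.mem_attach _ _, rfl⟩
  have hre : ∀ ρ ∈ fz t, ρ.re = 1 / 2 := fun ρ hρ => (hHS ρ (fz_mem hρ)).1
  set K' : Finset ℝ := (fz t).image Complex.im with hK'
  set b : ℝ → ℂ := fun l => (if l ∈ K' then ww (⟨1 / 2, l⟩ : ℂ) else 0) - (if l ∈ K then a l else 0) with hb
  have hSP : ∀ v, ∑ ρ ∈ fz t, ww ρ * ee ρ v - trig K a v = trig (K' ∪ K) b v := by
    intro v
    rw [sum_trig (fz t) hre v]
    unfold trig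
    have h1 : ∑ l ∈ K', ww (⟨1 / 2, l⟩ : ℂ) * Complex.exp (Complex.I * l * v) =
        ∑ l ∈ K' ∪ K, (if l ∈ K' then ww (⟨1 / 2, l⟩ : ℂ) else 0) * Complex.exp (Complex.I * l * v) := by
      rw [← Finset.sum_subset (Finset.subset_union_left (s₁ := K') (s₂ := K))]
      · exact Finset.sum_congr rfl fun l hl => by rw [if_pos hl]
      · intro l _ hl
        rw [if_neg hl, zero_mul]
    have h2 : ∑ l ∈ K, a l * Complex.exp (Complex.I * l * v) =
        ∑ l ∈ K' ∪ K, (if l ∈ K then a l else 0) * Complex.exp (Complex.I * l * v) := by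
      rw [← Finset.sum_subset (Finset.subset_union_right (s₁ := K') (s₂ := K))]
      · exact Finset.sum_congr rfl fun l hl => by rw [if_pos hl]
      · intro l _ hl
        rw [if_neg hl, zero_mul]
    rw [h1, h2, ← Finset.sum_sub_distrib]
    exact Finset.sum_congr rfl fun l _ => by rw [hb]; ring
  have hbig : s ≤ ∑ l ∈ K' ∪ K, ‖b l‖ ^ 2 := by
    have hinj : Set.InjOn Complex.im (Z : Set ℂ) := by
      intro x hx y hy h
      apply Complex.ext
      · rw [hre x (hZt hx), hre y (hZt hy)]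
      · exact h
    have h1 : s = ∑ l ∈ Z.image Complex.im, ‖b l‖ ^ 2 := by
      rw [Finset.sum_image hinj, hs]
      refine Finset.sum_congr rfl fun ρ hρ => ?_
      have e1 : ρ.im ∈ K' := by rw [hK']; exact Finset.mem_image_of_mem _ (hZt hρ)
      have e2 : (⟨1 / 2, ρ.im⟩ : ℂ) = ρ := by
        apply Complex.ext
        · simp [hre ρ (hZt hρ)]
        · rfl
      simp only [hb]
      rw [if_pos e1, if_neg (hZ ρ hρ).2, sub_zero, e2, aa_eq]
    rw [h1]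
    refine Finset.sum_le_sum_of_subset_of_nonneg ?_ fun _ _ _ => by positivity
    intro l hl
    rw [Finset.mem_image] at hl
    obtain ⟨ρ, hρ, rfl⟩ := hl
    exact Finset.mem_union_left _ (Finset.mem_image_of_mem _ (hZt hρ))
  have h1 := parseval (K' ∪ K) b
  have h2 := dist_fin hHS hsum (fz t) fun ρ hρ => fz_mem hρ
  have h3 := hs₀ t hts
  rw [fz_sum] at h2
  filter_upwards [h1.eventually (lt_mem_nhds (show s - η < ∑ l ∈ K' ∪ K, ‖b l‖ ^ 2 by linarith)),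
    h2.eventually (gt_mem_nhds (show ∑' ρ : NT, aa ρ - ∑ ρ ∈ t, aa (ρ : ℂ) < 2 * η by linarith)),
    eventually_gt_atTop (0:ℝ)] with V g1 g2 hV
  have hcont : Continuous fun v => ∑ ρ ∈ fz t, ww ρ * ee ρ v := by
    have : (fun v => ∑ ρ ∈ fz t, ww ρ * ee ρ v) = trig K' (fun l => ww (⟨1 / 2, l⟩ : ℂ)) :=
      funext fun v => sum_trig (fz t) hre v
    rw [this]
    exact trig_cont _ _
  have i1 : IntervalIntegrable (fun v => ‖((ft v : ℝ) : ℂ) - trig K a v‖ ^ 2) volume 0 V :=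
    (ft_LB.normsq (trig_cont K a)).ii hV.le
  have i2 : IntervalIntegrable (fun v => ‖((ft v : ℝ) : ℂ) - ∑ ρ ∈ fz t, ww ρ * ee ρ v‖ ^ 2) volume 0 V :=
    (ft_LB.normsq hcont).ii hV.le
  have i3 : IntervalIntegrable (fun v => ‖trig (K' ∪ K) b v‖ ^ 2) volume 0 V :=
    ((trig_cont _ _).norm.pow 2).intervalIntegrable _ _
  have h4 : mn (fun v => (1 - δ) * ‖trig (K' ∪ K) b v‖ ^ 2 -
      1 / δ * ‖((ft v : ℝ) : ℂ) - ∑ ρ ∈ fz t, ww ρ * ee ρ v‖ ^ 2) V ≤
      mn (fun v => ‖((ft v : ℝ) : ℂ) - trig K a v‖ ^ 2) V := by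
    refine mn_mono hV ((i3.const_mul _).sub (i2.const_mul _)) i1 fun v _ => ?_
    have h5 := pw (∑ ρ ∈ fz t, ww ρ * ee ρ v - trig K a v) (((ft v : ℝ) : ℂ) - ∑ ρ ∈ fz t, ww ρ * ee ρ v) hδ0
    rw [hSP] at h5
    refine h5.trans (le_of_eq ?_)
    congr 2
    rw [← hSP]
    ring
  rw [mn_sub (i3.const_mul _) (i2.const_mul _), mn_const_mul, mn_const_mul] at h4
  refine le_trans ?_ h4
  have h5 : (1 - δ) * (s - η) ≤ (1 - δ) * mn (fun v => ‖trig (K' ∪ K) b v‖ ^ 2) V :=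
    mul_le_mul_of_nonneg_left g1.le (by linarith)
  have h6 : 1 / δ * mn (fun v => ‖((ft v : ℝ) : ℂ) - ∑ ρ ∈ fz t, ww ρ * ee ρ v‖ ^ 2) V ≤ 1 / δ * (2 * η) :=
    mul_le_mul_of_nonneg_left g2.le (by positivity)
  have h7 : 1 / δ * (2 * η) = 2 * η / δ := by ring
  nlinarith

/-- the distance when the weak Mertens hypothesis fails -/
lemma low_no (h : ¬ (HS ∧ Summable (fun ρ : NT => aa ρ))) (K : Finset ℝ) (a : ℝ → ℂ) (c : ℝ) :
    ∀ᶠ V : ℝ in atTop, c ≤ mn (fun v => ‖((ft v : ℝ) : ℂ) - trig K a v‖ ^ 2) V := by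
  set B : ℝ := ∑ l ∈ K, ‖a l‖ ^ 2 + 1 with hB
  set C : ℝ := 2 * c + 4 * B with hC
  have h1 : ∀ᶠ V : ℝ in atTop, C < mn (fun v => ft v ^ 2) V := by
    by_contra hcon
    rw [Filter.not_eventually] at hcon
    apply h
    have h2 : ∃ᶠ x in atTop, II x ≤ C * Real.log x := by
      refine Real.tendsto_exp_atTop.frequently ?_
      refine (hcon.and_eventually (eventually_gt_atTop (0:ℝ))).mono ?_
      rintro V ⟨h3, hV⟩
      rw [not_lt, mn_sq hV.le, div_le_iff₀ hV] at h3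
      rw [Pool.Agent.H295R2.II_exp hV.le, Real.log_exp]
      exact h3
    obtain ⟨h3, h4, -⟩ := conv h2
    exact ⟨h3, h4⟩
  have h2 := parseval K a
  filter_upwards [h1, h2.eventually (gt_mem_nhds (show ∑ l ∈ K, ‖a l‖ ^ 2 < B by rw [hB]; linarith)),
    eventually_gt_atTop (0:ℝ)] with V g1 g2 hV
  have i1 : IntervalIntegrable (fun v => ‖((ft v : ℝ) : ℂ) - trig K a v‖ ^ 2) volume 0 V :=
    (ft_LB.normsq (trig_cont K a)).ii hV.le
  have i2 : IntervalIntegrable (fun v => ft v ^ 2) volume 0 V := ft_LB.sq.ii hV.le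
  have i3 : IntervalIntegrable (fun v => ‖trig K a v‖ ^ 2) volume 0 V :=
    ((trig_cont _ _).norm.pow 2).intervalIntegrable _ _
  have h4 : mn (fun v => (1 / 2) * ft v ^ 2 - 2 * ‖trig K a v‖ ^ 2) V ≤
      mn (fun v => ‖((ft v : ℝ) : ℂ) - trig K a v‖ ^ 2) V := by
    refine mn_mono hV ((i2.const_mul _).sub (i3.const_mul _)) i1 fun v _ => ?_
    have h5 := pw ((ft v : ℝ) : ℂ) (-trig K a v) (δ := 1 / 2) (by norm_num)
    rw [norm_neg, Complex.norm_real, Real.norm_eq_abs, sq_abs, ← sub_eq_add_neg] at h5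
    norm_num at h5 ⊢
    linarith
  rw [mn_sub (i2.const_mul _) (i3.const_mul _), mn_const_mul, mn_const_mul] at h4
  linarith

/-- the distance is at least the sum of `1/|ρ ζ'(ρ)|²` over the other zeros -/
theorem low (K : Finset ℝ) (a : ℝ → ℂ) (Z : Finset ℂ) (hZ : ∀ ρ ∈ Z, ρ ∈ NT ∧ ρ.im ∉ K) {c : ℝ}
    (hc : c < ∑ ρ ∈ Z, aa ρ) :
    ∀ᶠ V : ℝ in atTop, c ≤ mn (fun v => ‖((ft v : ℝ) : ℂ) - trig K a v‖ ^ 2) V := by
  by_cases h : HS ∧ Summable (fun ρ : NT => aa ρ)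
  · exact low_yes h.1 h.2 K a Z hZ hc
  · exact low_no h K a c

end Pool.Agent.H362.MW
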