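import Pool.Agent.H362.MW.Many

set_option autoImplicit false

/-! # The best approximation of `M(e^v) e^(-v/2)` by waves with given frequencies -/

namespace Pool.Agent.H362.MW

open MeasureTheory Filter Topology Set
open scoped ENNReal
open Pool.Agent.W120.WM (NT)
open Pool.Agent.H295R2 (II JJ ww ee)
open Pool.Agent.TH223.AP
open Pool.Agent.H313.ZC (HS aa fz fz_mem fz_sum dist_fin exists_fz conv aa_eq aa_nonneg)

open Classical in
/-- the weight of a zero, without the frequencies in `K` -/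
noncomputable def wt (K : Finset ℝ) (ρ : ℂ) : ℝ≥0∞ :=
  if ρ.re = 1 / 2 ∧ deriv riemannZeta ρ ≠ 0 then (if ρ.im ∈ K then 0 else ENNReal.ofReal (aa ρ)) else ⊤

/-- the sum of the weights -/
noncomputable def EK (K : Finset ℝ) : ℝ≥0∞ := ∑' ρ : NT, wt K ρ

lemma wt_in {K : Finset ℝ} {ρ : ℂ} (h : ρ.re = 1 / 2 ∧ deriv riemannZeta ρ ≠ 0) (hK : ρ.im ∈ K) : wt K ρ = 0 := by
  unfold wt; rw [if_pos h, if_pos hK]

lemma wt_out {K : Finset ℝ} {ρ : ℂ} (h : ρ.re = 1 / 2 ∧ deriv riemannZeta ρ ≠ 0) (hK : ρ.im ∉ K) :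
    wt K ρ = ENNReal.ofReal (aa ρ) := by
  unfold wt; rw [if_pos h, if_neg hK]

lemma finite_K (hHS : HS) (K : Finset ℝ) : {ρ : ℂ | ρ ∈ NT ∧ ρ.im ∈ K}.Finite := by
  refine Set.Finite.of_finite_image (f := Complex.im) (K.finite_toSet.subset ?_) ?_
  · rintro _ ⟨ρ, hρ, rfl⟩
    exact hρ.2
  · intro x hx y hy h
    apply Complex.ext
    · rw [(hHS x hx.1).1, (hHS y hy.1).1]
    · exact h

/-- if the weak Mertens hypothesis fails the error is infinite -/
lemma EK_no (h : ¬ (HS ∧ Summable (fun ρ : NT => aa ρ))) (K : Finset ℝ) : EK K = ⊤ := by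
  by_cases hHS : HS
  · by_contra hne
    apply h
    refine ⟨hHS, ?_⟩
    have hfin := finite_K hHS K
    have h1 : ∑' ρ : NT, ENNReal.ofReal (aa ρ) ≠ ⊤ := by
      have h2 : ∀ ρ : NT, ENNReal.ofReal (aa ρ) ≤ wt K ρ +
          (if (ρ : ℂ) ∈ hfin.toFinset then ENNReal.ofReal (aa ρ) else 0) := by
        intro ρ
        by_cases hρ : (ρ : ℂ).im ∈ K
        · rw [if_pos (by rw [Set.Finite.mem_toFinset]; exact ⟨ρ.2, hρ⟩)]
          exact le_add_self
        · rw [wt_out (hHS ρ ρ.2) hρ]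
          exact le_self_add
      have h3 : ∑' ρ : NT, (if (ρ : ℂ) ∈ hfin.toFinset then ENNReal.ofReal (aa ρ) else 0) ≠ ⊤ := by
        have h4 : {ρ : NT | (ρ : ℂ) ∈ hfin.toFinset}.Finite :=
          Set.Finite.preimage Subtype.val_injective.injOn hfin.toFinset.finite_toSet
        rw [tsum_eq_sum (s := h4.toFinset)]
        · refine (ENNReal.sum_lt_top.2 fun ρ _ => ?_).ne
          split_ifs
          · exact ENNReal.ofReal_lt_top
          · exact ENNReal.zero_lt_top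
        · intro ρ hρ
          rw [Set.Finite.mem_toFinset] at hρ
          exact if_neg hρ
      refine ne_top_of_le_ne_top (ENNReal.add_ne_top.2 ⟨hne, h3⟩) ?_
      unfold EK
      rw [← ENNReal.tsum_add]
      exact ENNReal.tsum_le_tsum h2
    have h2 := ENNReal.summable_toReal h1
    refine h2.congr fun ρ => ?_
    rw [ENNReal.toReal_ofReal (aa_nonneg _)]
  · unfold HS at hHS
    push Not at hHS
    obtain ⟨ρ, hρ, h1⟩ := hHS
    have h2 : wt K ρ = ⊤ := by
      unfold wt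
      rw [if_neg]
      rintro ⟨h3, h4⟩
      exact h4 (h1 h3)
    unfold EK
    exact ENNReal.tsum_eq_top_of_eq_top ⟨⟨ρ, hρ⟩, h2⟩

/-- if it holds the error is the sum over the other zeros -/
lemma EK_yes (hHS : HS) (hsum : Summable (fun ρ : NT => aa ρ)) (K : Finset ℝ) :
    EK K = ENNReal.ofReal (∑' ρ : NT, aa ρ - ∑ ρ ∈ (finite_K hHS K).toFinset, aa ρ) := by
  classical
  have hfin := finite_K hHS K
  have h4 : {ρ : NT | (ρ : ℂ) ∈ hfin.toFinset}.Finite :=
    Set.Finite.preimage Subtype.val_injective.injOn hfin.toFinset.finite_toSet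
  have h1 : Summable (fun ρ : NT => if (ρ : ℂ).im ∈ K then aa ρ else 0) := by
    refine summable_of_ne_finset_zero (s := h4.toFinset) ?_
    intro ρ hρ
    rw [Set.Finite.mem_toFinset] at hρ
    refine if_neg fun h => hρ ?_
    show (ρ : ℂ) ∈ hfin.toFinset
    rw [Set.Finite.mem_toFinset]
    exact ⟨ρ.2, h⟩
  have h2 : ∑' ρ : NT, (if (ρ : ℂ).im ∈ K then aa ρ else 0) = ∑ ρ ∈ hfin.toFinset, aa ρ := by
    rw [tsum_eq_sum (s := h4.toFinset)]
    · have h5 : hfin.toFinset = h4.toFinset.map ⟨Subtype.val, Subtype.val_injective⟩ := by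
        ext ρ
        rw [Finset.mem_map]
        constructor
        · intro hρ
          have hρ' := hρ
          rw [Set.Finite.mem_toFinset] at hρ'
          exact ⟨⟨ρ, hρ'.1⟩, by rw [Set.Finite.mem_toFinset]; exact hρ, rfl⟩
        · rintro ⟨ρ', hρ', rfl⟩
          rw [Set.Finite.mem_toFinset] at hρ'
          exact hρ'
      have h6 : ∑ ρ ∈ hfin.toFinset, aa ρ =
          ∑ ρ ∈ h4.toFinset.map ⟨Subtype.val, Subtype.val_injective⟩, aa ρ := Finset.sum_congr h5 fun _ _ => rfl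
      rw [h6, Finset.sum_map]
      refine Finset.sum_congr rfl fun ρ hρ => ?_
      rw [Set.Finite.mem_toFinset] at hρ
      have hρ' : (ρ : ℂ) ∈ hfin.toFinset := hρ
      rw [Set.Finite.mem_toFinset] at hρ'
      rw [if_pos hρ'.2]
      rfl
    · intro ρ hρ
      rw [Set.Finite.mem_toFinset] at hρ
      refine if_neg fun h => hρ ?_
      show (ρ : ℂ) ∈ hfin.toFinset
      rw [Set.Finite.mem_toFinset]
      exact ⟨ρ.2, h⟩
  have h3 : (fun ρ : NT => wt K ρ) = fun ρ : NT => ENNReal.ofReal (aa ρ - if (ρ : ℂ).im ∈ K then aa ρ else 0) := by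
    funext ρ
    by_cases hρ : (ρ : ℂ).im ∈ K
    · rw [wt_in (hHS ρ ρ.2) hρ, if_pos hρ, sub_self, ENNReal.ofReal_zero]
    · rw [wt_out (hHS ρ ρ.2) hρ, if_neg hρ, sub_zero]
  unfold EK
  rw [h3, ← ENNReal.ofReal_tsum_of_nonneg, (hsum.tsum_sub h1), h2]
  · intro ρ
    split_ifs
    · rw [sub_self]
    · rw [sub_zero]; exact aa_nonneg _
  · exact hsum.sub h1

/-- no sum of waves with frequencies in `K` is better than `EK K` -/
theorem lower (K : Finset ℝ) (a : ℝ → ℂ) :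
    EK K ≤ liminf (fun V : ℝ => ENNReal.ofReal (mn (fun v => ‖((ft v : ℝ) : ℂ) - trig K a v‖ ^ 2) V)) atTop := by
  classical
  by_cases h : HS ∧ Summable (fun ρ : NT => aa ρ)
  · obtain ⟨hHS, hsum⟩ := h
    refine le_of_forall_lt fun b hb => ?_
    unfold EK at hb
    rw [ENNReal.tsum_eq_iSup_sum] at hb
    obtain ⟨s, hs⟩ := lt_iSup_iff.1 hb
    set Z : Finset ℂ := (s.filter fun ρ : NT => (ρ : ℂ).im ∉ K).map ⟨Subtype.val, Subtype.val_injective⟩ with hZ
    have h1 : ∑ ρ ∈ s, wt K ρ = ENNReal.ofReal (∑ ρ ∈ Z, aa ρ) := by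
      rw [hZ, Finset.sum_map, ENNReal.ofReal_sum_of_nonneg (fun ρ _ => aa_nonneg _), Finset.sum_filter]
      refine Finset.sum_congr rfl fun ρ _ => ?_
      by_cases hρ : (ρ : ℂ).im ∈ K
      · rw [wt_in (hHS ρ ρ.2) hρ, if_neg (not_not.2 hρ)]
      · rw [wt_out (hHS ρ ρ.2) hρ, if_pos hρ]
        rfl
    rw [h1] at hs
    obtain ⟨c, hc1, hc2⟩ := ENNReal.lt_iff_exists_nnreal_btwn.1 hs
    have hc3 : (c : ℝ) < ∑ ρ ∈ Z, aa ρ := by
      rw [← ENNReal.ofReal_coe_nnreal] at hc2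
      exact (ENNReal.ofReal_lt_ofReal_iff_of_nonneg c.2).1 hc2
    have h2 := low K a Z (fun ρ hρ => by
      rw [hZ, Finset.mem_map] at hρ
      obtain ⟨ρ', hρ', rfl⟩ := hρ
      rw [Finset.mem_filter] at hρ'
      exact ⟨ρ'.2, hρ'.2⟩) hc3
    refine lt_of_lt_of_le hc1 (le_liminf_of_le (by isBoundedDefault) ?_)
    filter_upwards [h2] with V hV
    rw [← ENNReal.ofReal_coe_nnreal]
    exact ENNReal.ofReal_le_ofReal hV
  · have h1 : Tendsto (fun V : ℝ => ENNReal.ofReal (mn (fun v => ‖((ft v : ℝ) : ℂ) - trig K a v‖ ^ 2) V)) atTop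
        (𝓝 ⊤) := ENNReal.tendsto_ofReal_atTop.comp (tendsto_atTop.2 fun c => low_no h K a c)
    rw [h1.liminf_eq]
    exact le_top

/-- the best sum of waves with frequencies in `K` -/
theorem attained (K : Finset ℝ) : ∃ a : ℝ → ℂ,
    Tendsto (fun V : ℝ => ENNReal.ofReal (mn (fun v => ‖((ft v : ℝ) : ℂ) - trig K a v‖ ^ 2) V)) atTop (𝓝 (EK K)) := by
  classical
  by_cases h : HS ∧ Summable (fun ρ : NT => aa ρ)
  · obtain ⟨hHS, hsum⟩ := h
    have hfin := finite_K hHS K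
    refine ⟨fun l => if (⟨1 / 2, l⟩ : ℂ) ∈ NT then ww (⟨1 / 2, l⟩ : ℂ) else 0, ?_⟩
    rw [EK_yes hHS hsum]
    have h1 := dist_fin hHS hsum hfin.toFinset fun ρ hρ => by
      rw [Set.Finite.mem_toFinset] at hρ
      exact hρ.1
    have h2 : ∑ ρ ∈ hfin.toFinset, ‖ww ρ‖ ^ 2 = ∑ ρ ∈ hfin.toFinset, aa ρ :=
      Finset.sum_congr rfl fun ρ _ => (aa_eq ρ).symm
    rw [h2] at h1
    refine (ENNReal.tendsto_ofReal h1).congr fun V => ?_
    congr 2
    funext v
    congr 3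
    rw [sum_trig _ (fun ρ hρ => by
      rw [Set.Finite.mem_toFinset] at hρ
      exact (hHS ρ hρ.1).1)]
    unfold trig
    have himg : hfin.toFinset.image Complex.im ⊆ K := by
      intro l hl
      rw [Finset.mem_image] at hl
      obtain ⟨ρ, hρ, rfl⟩ := hl
      rw [Set.Finite.mem_toFinset] at hρ
      exact hρ.2
    rw [← Finset.sum_subset himg]
    · refine Finset.sum_congr rfl fun l hl => ?_
      rw [Finset.mem_image] at hl
      obtain ⟨ρ, hρ, rfl⟩ := hl
      rw [Set.Finite.mem_toFinset] at hρ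
      have e2 : (⟨1 / 2, ρ.im⟩ : ℂ) = ρ := by
        apply Complex.ext
        · simp [(hHS ρ hρ.1).1]
        · rfl
      beta_reduce
      rw [e2, if_pos hρ.1]
    · intro l hl hl2
      beta_reduce
      rw [if_neg, zero_mul]
      intro h3
      apply hl2
      rw [Finset.mem_image]
      exact ⟨_, by rw [Set.Finite.mem_toFinset]; exact ⟨h3, hl⟩, rfl⟩
  · refine ⟨0, ?_⟩
    rw [EK_no h]
    exact ENNReal.tendsto_ofReal_atTop.comp (tendsto_atTop.2 fun c => low_no h K 0 c)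

end Pool.Agent.H362.MW
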