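import Pool.Agent.H362.MW.Dist
import Pool.Agent.H362.LD.Main

set_option autoImplicit false

/-! # Many zeros with a small derivative, and approximation of `M(e^v) e^(-v/2)` by sums of `N` waves -/

namespace Pool.Agent.H362.MW

open MeasureTheory Filter Topology Set
open Pool.Agent.W120.WM (NT)
open Pool.Agent.H295R2 (II JJ ww ee)
open Pool.Agent.TH223.AP
open Pool.Agent.H313.ZC (HS aa fz fz_mem fz_sum dist_fin exists_fz conv aa_eq)
open Pool.Agent.H362.LD (Sz Sz_finite unif)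

lemma log_small {e : ℝ} : ∀ᶠ N : ℝ in atTop, 4 * Real.log N ^ e ≤ N := by
  have h := (isLittleO_log_rpow_rpow_atTop e (zero_lt_one : (0:ℝ) < 1)).bound (show (0:ℝ) < 1 / 4 by norm_num)
  filter_upwards [h, eventually_ge_atTop (1:ℝ)] with N h1 h2
  have h0 : 0 ≤ Real.log N := Real.log_nonneg h2
  rw [Real.norm_of_nonneg (Real.rpow_nonneg h0 _), Real.rpow_one, Real.norm_of_nonneg (by linarith)] at h1
  linarith

/-- many zeros with a small derivative: those with `|ζ'(ρ)| = (log T) ^ (1/2 + o(1))` -/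
theorem many {ε : ℝ} (hε : 0 < ε) : ∀ᶠ N : ℝ in atTop, ∃ S : Finset ℂ, 2 * N ≤ (S.card : ℝ) ∧
    ∀ ρ ∈ S, ρ ∈ NT ∧ ρ.re = 1 / 2 ∧ 2 * Real.log N ^ (1 / 2 - ε) / N ^ 2 ≤ aa ρ := by
  obtain ⟨d, hd, h⟩ := unif
  set e : ℝ := min (1 / 4) (ε / 7) with he
  have he0 : 0 < e := by rw [he, lt_min_iff]; exact ⟨by norm_num, by positivity⟩
  have he1 : e ≤ 1 / 4 := min_le_left _ _
  have he2 : 7 * e ≤ ε := by
    have : e ≤ ε / 7 := min_le_right _ _
    linarith
  have h1 := h 1 e he0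
  have hbig : ∀ᶠ N : ℝ in atTop, Real.log N ^ (1:ℝ) ≤ N ^ (1 / 2 : ℝ) := by
    have h2 := (isLittleO_log_rpow_rpow_atTop 1 (show (0:ℝ) < 1 / 2 by norm_num)).bound (show (0:ℝ) < 1 by norm_num)
    filter_upwards [h2, eventually_ge_atTop (1:ℝ)] with N h3 h4
    have h0 : 0 ≤ Real.log N := Real.log_nonneg h4
    rw [Real.norm_of_nonneg (Real.rpow_nonneg h0 _), Real.norm_of_nonneg (by positivity), one_mul] at h3
    exact h3
  have hlow : ∀ᶠ N : ℝ in atTop, N ^ (1 / 2 : ℝ) ≤ 4 * N * Real.log N ^ (-(3 / 4) + 2 * e) := by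
    filter_upwards [hbig, eventually_ge_atTop (3:ℝ), Real.tendsto_log_atTop.eventually_ge_atTop 1] with N h3 h4 h5
    have hN : (0:ℝ) < N := by linarith
    have hL : (0:ℝ) < Real.log N := by linarith
    have h6 : Real.log N ^ (-1 : ℝ) ≤ Real.log N ^ (-(3 / 4) + 2 * e) :=
      Real.rpow_le_rpow_of_exponent_le h5 (by linarith)
    have h7 : N ^ (-(1 / 2) : ℝ) ≤ Real.log N ^ (-1 : ℝ) := by
      rw [Real.rpow_neg hN.le, Real.rpow_neg hL.le]
      exact inv_anti₀ (Real.rpow_pos_of_pos hL _) h3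
    have h8 : N ^ (1 / 2 : ℝ) = N * N ^ (-(1 / 2) : ℝ) := by
      nth_rewrite 2 [← Real.rpow_one N]
      rw [← Real.rpow_add hN]
      norm_num
    rw [h8]
    have h9 : 0 < Real.log N ^ (-(3 / 4) + 2 * e) := Real.rpow_pos_of_pos hL _
    calc N * N ^ (-(1 / 2) : ℝ) ≤ N * Real.log N ^ (-(3 / 4) + 2 * e) :=
          mul_le_mul_of_nonneg_left (h7.trans h6) hN.le
      _ ≤ 4 * N * Real.log N ^ (-(3 / 4) + 2 * e) := by nlinarith [mul_pos hN h9]
  have hT : Tendsto (fun N : ℝ => 4 * N * Real.log N ^ (-(3 / 4) + 2 * e)) atTop atTop :=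
    tendsto_atTop_mono' _ hlow (tendsto_rpow_atTop (by norm_num))
  have hl : Tendsto (fun N : ℝ => Real.log N ^ e) atTop atTop :=
    (tendsto_rpow_atTop he0).comp Real.tendsto_log_atTop
  filter_upwards [hT.eventually h1, hT.eventually_ge_atTop 1, hlow, eventually_ge_atTop (4:ℝ),
    Real.tendsto_log_atTop.eventually_ge_atTop 2, hl.eventually_ge_atTop 2304] with N g1 g2 g3 g4 g5 g6
  set T : ℝ := 4 * N * Real.log N ^ (-(3 / 4) + 2 * e) with hTdef
  have hN0 : 0 < N := by linarith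
  have hLN : 0 < Real.log N := by linarith
  have hLN1 : 1 ≤ Real.log N := by linarith
  have hT0 : 0 < T := by linarith
  have hTN : T ≤ N ^ 2 := by
    have h2 : Real.log N ^ (-(3 / 4) + 2 * e) ≤ 1 := Real.rpow_le_one_of_one_le_of_nonpos hLN1 (by linarith)
    calc T ≤ 4 * N * 1 := by rw [hTdef]; exact mul_le_mul_of_nonneg_left h2 (by linarith)
      _ ≤ N ^ 2 := by nlinarith
  have hlog1 : 1 / 2 * Real.log N ≤ Real.log T := by
    have := Real.log_le_log (Real.rpow_pos_of_pos hN0 _) g3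
    rwa [Real.log_rpow hN0] at this
  have hlog2 : Real.log T ≤ 2 * Real.log N := by
    have := Real.log_le_log hT0 hTN
    rwa [Real.log_pow, Nat.cast_ofNat] at this
  have hLT : 0 < Real.log T := by linarith
  have g1' := g1 (-(1 / 2)) (by norm_num)
  refine ⟨(Sz_finite d (-(1 / 2)) e T).toFinset, ?_, ?_⟩
  · rw [← Set.ncard_eq_toFinset_card _ (Sz_finite d (-(1 / 2)) e T)]
    refine le_trans ?_ g1'
    have e1 : (1:ℝ) - (-(1 / 2)) ^ 2 - e = 3 / 4 - e := by ring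
    rw [e1]
    have h2 : Real.log N ^ (3 / 4 - e) / 2 ≤ Real.log T ^ (3 / 4 - e) := by
      have h3 : (1 / 2 * Real.log N) ^ (3 / 4 - e) ≤ Real.log T ^ (3 / 4 - e) :=
        Real.rpow_le_rpow (by positivity) hlog1 (by linarith)
      rw [Real.mul_rpow (by norm_num) hLN.le] at h3
      have h4 : (1 / 2 : ℝ) ≤ (1 / 2 : ℝ) ^ (3 / 4 - e) := by
        nth_rewrite 1 [← Real.rpow_one (1 / 2 : ℝ)]
        exact Real.rpow_le_rpow_of_exponent_ge (by norm_num) (by norm_num) (by linarith)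
      have h5 : 0 ≤ Real.log N ^ (3 / 4 - e) := by positivity
      nlinarith
    have h3 : (1:ℝ) ≤ Real.log N ^ e := Real.one_le_rpow hLN1 he0.le
    calc 2 * N ≤ 2 * N * Real.log N ^ e := by nlinarith
      _ = T * (Real.log N ^ (3 / 4 - e) / 2) := by
          rw [hTdef]
          have h4 : Real.log N ^ (-(3 / 4) + 2 * e) * Real.log N ^ (3 / 4 - e) = Real.log N ^ e := by
            rw [← Real.rpow_add hLN]
            congr 1
            ring
          rw [← h4]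
          ring
      _ ≤ T * Real.log T ^ (3 / 4 - e) := mul_le_mul_of_nonneg_left h2 hT0.le
  · intro ρ hρ
    rw [Set.Finite.mem_toFinset] at hρ
    obtain ⟨a1, a2, a3, a4, a5, -, -, a8⟩ := hρ
    refine ⟨⟨a1, by rw [a2]; norm_num, by rw [a2]; norm_num⟩, a2, ?_⟩
    have e1 : (1:ℝ) + -(1 / 2) + e = 1 / 2 + e := by ring
    rw [e1] at a8
    have b1 : ‖ρ‖ ≤ 3 * T := by
      have h2 := Complex.norm_le_abs_re_add_abs_im ρ
      rw [a2, abs_of_pos (by linarith : 0 < ρ.im)] at h2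
      have h3 : |(1/2 : ℝ)| = 1 / 2 := by norm_num
      rw [h3] at h2
      linarith
    have b2 : ‖deriv riemannZeta ρ‖ ≤ 2 * Real.log N ^ (1 / 2 + e) := by
      refine a8.trans ?_
      calc Real.log T ^ (1 / 2 + e) ≤ (2 * Real.log N) ^ (1 / 2 + e) :=
            Real.rpow_le_rpow hLT.le hlog2 (by linarith)
        _ = 2 ^ (1 / 2 + e) * Real.log N ^ (1 / 2 + e) := Real.mul_rpow (by norm_num) hLN.le
        _ ≤ 2 * Real.log N ^ (1 / 2 + e) := by
            refine mul_le_mul_of_nonneg_right ?_ (by positivity)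
            calc (2:ℝ) ^ (1 / 2 + e) ≤ 2 ^ (1:ℝ) := Real.rpow_le_rpow_of_exponent_le (by norm_num) (by linarith)
              _ = 2 := Real.rpow_one 2
    have b3 : 0 < ‖deriv riemannZeta ρ‖ := norm_pos_iff.2 a5
    have b4 : 0 < ‖ρ‖ := by
      rw [norm_pos_iff]
      rintro rfl
      norm_num at a2
    unfold aa
    rw [div_le_div_iff₀ (by positivity) (by rw [norm_mul]; positivity), norm_mul, one_mul]
    have b5 : ‖ρ‖ * ‖deriv riemannZeta ρ‖ ≤ 3 * T * (2 * Real.log N ^ (1 / 2 + e)) :=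
      mul_le_mul b1 b2 b3.le (by positivity)
    have b6 : (‖ρ‖ * ‖deriv riemannZeta ρ‖) ^ 2 ≤ (3 * T * (2 * Real.log N ^ (1 / 2 + e))) ^ 2 :=
      pow_le_pow_left₀ (by positivity) b5 2
    have b7 : (3 * T * (2 * Real.log N ^ (1 / 2 + e))) ^ 2 = 576 * (N ^ 2 * Real.log N ^ (-(1 / 2) + 6 * e)) := by
      rw [hTdef]
      have h4 : Real.log N ^ (-(1 / 2) + 6 * e) =
          (Real.log N ^ (-(3 / 4) + 2 * e)) ^ 2 * (Real.log N ^ (1 / 2 + e)) ^ 2 := by
        rw [← Real.rpow_natCast, ← Real.rpow_natCast, ← Real.rpow_mul hLN.le, ← Real.rpow_mul hLN.le,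
          ← Real.rpow_add hLN]
        congr 1
        push_cast
        ring
      rw [h4]
      ring
    have b9 : Real.log N ^ (1 / 2 - ε) * Real.log N ^ (-(1 / 2) + 6 * e) * Real.log N ^ e ≤ 1 := by
      rw [← Real.rpow_add hLN, ← Real.rpow_add hLN]
      exact Real.rpow_le_one_of_one_le_of_nonpos hLN1 (by linarith)
    have b10 : 0 ≤ Real.log N ^ (1 / 2 - ε) * Real.log N ^ (-(1 / 2) + 6 * e) := by positivity
    have b11 : 2304 * (Real.log N ^ (1 / 2 - ε) * Real.log N ^ (-(1 / 2) + 6 * e)) ≤ 1 := by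
      calc 2304 * (Real.log N ^ (1 / 2 - ε) * Real.log N ^ (-(1 / 2) + 6 * e)) ≤
            Real.log N ^ e * (Real.log N ^ (1 / 2 - ε) * Real.log N ^ (-(1 / 2) + 6 * e)) :=
            mul_le_mul_of_nonneg_right g6 b10
        _ ≤ 1 := by rw [mul_comm]; exact b9
    calc 2 * Real.log N ^ (1 / 2 - ε) * (‖ρ‖ * ‖deriv riemannZeta ρ‖) ^ 2 ≤
          2 * Real.log N ^ (1 / 2 - ε) * (576 * (N ^ 2 * Real.log N ^ (-(1 / 2) + 6 * e))) := by
            rw [← b7]
            exact mul_le_mul_of_nonneg_left b6 (by positivity)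
      _ = N ^ 2 * (1 / 2 * (2304 * (Real.log N ^ (1 / 2 - ε) * Real.log N ^ (-(1 / 2) + 6 * e)))) := by ring
      _ ≤ N ^ 2 * (1 / 2 * 1) := by
          refine mul_le_mul_of_nonneg_left ?_ (by positivity)
          linarith
      _ ≤ N ^ 2 := by nlinarith [sq_nonneg N]

/-- the main bound -/
theorem waves {ε : ℝ} (hε : 0 < ε) : ∃ N₀ : ℕ, ∀ N : ℕ, N₀ ≤ N → ∀ (K : Finset ℝ) (a : ℝ → ℂ), K.card ≤ N →
    ∀ᶠ V : ℝ in atTop, Real.log N ^ (1 / 2 - ε) / (N : ℝ) ≤ mn (fun v => ‖((ft v : ℝ) : ℂ) - trig K a v‖ ^ 2) V := by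
  classical
  have h1 := tendsto_natCast_atTop_atTop.eventually ((many hε).and
    ((eventually_ge_atTop (3:ℝ)).and (Real.tendsto_log_atTop.eventually_ge_atTop 1)))
  obtain ⟨N₀, hN₀⟩ := eventually_atTop.1 h1
  refine ⟨N₀, fun N hN K a hK => ?_⟩
  obtain ⟨⟨S, hS1, hS2⟩, g1, g2⟩ := hN₀ N hN
  have hN0 : (0:ℝ) < N := by linarith
  have hL : 0 < Real.log (N:ℝ) := by linarith
  set Z : Finset ℂ := S.filter (fun ρ => ρ.im ∉ K) with hZ
  have hcard : (N : ℝ) ≤ Z.card := by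
    have h2 : (S.filter (fun ρ => ¬ ρ.im ∉ K)).card ≤ K.card := by
      refine Finset.card_le_card_of_injOn Complex.im ?_ ?_
      · intro ρ hρ
        rw [Finset.mem_coe, Finset.mem_filter, not_not] at hρ
        exact hρ.2
      · intro x hx y hy hxy
        rw [Finset.mem_coe, Finset.mem_filter] at hx hy
        apply Complex.ext
        · rw [(hS2 x hx.1).2.1, (hS2 y hy.1).2.1]
        · exact hxy
    have h3 := Finset.card_filter_add_card_filter_not (s := S) (fun ρ => ρ.im ∉ K)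
    have h4 : (S.card : ℝ) = Z.card + (S.filter (fun ρ => ¬ ρ.im ∉ K)).card := by
      rw [hZ]; exact_mod_cast h3.symm
    have h5 : ((S.filter (fun ρ => ¬ ρ.im ∉ K)).card : ℝ) ≤ N := by exact_mod_cast h2.trans hK
    linarith
  refine low K a Z (fun ρ hρ => ?_) ?_
  · rw [hZ, Finset.mem_filter] at hρ
    exact ⟨(hS2 ρ hρ.1).1, hρ.2⟩
  · have h6 : ∀ ρ ∈ Z, 2 * Real.log N ^ (1 / 2 - ε) / (N:ℝ) ^ 2 ≤ aa ρ := fun ρ hρ => by
      rw [hZ, Finset.mem_filter] at hρ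
      exact (hS2 ρ hρ.1).2.2
    have h7 : Z.card • (2 * Real.log N ^ (1 / 2 - ε) / (N:ℝ) ^ 2) ≤ ∑ ρ ∈ Z, aa ρ :=
      Finset.card_nsmul_le_sum _ _ _ h6
    rw [nsmul_eq_mul] at h7
    refine lt_of_lt_of_le ?_ h7
    have hp : 0 < Real.log (N:ℝ) ^ (1 / 2 - ε) := Real.rpow_pos_of_pos hL _
    have h8 : 0 < 2 * Real.log N ^ (1 / 2 - ε) / (N:ℝ) ^ 2 := by positivity
    calc Real.log N ^ (1 / 2 - ε) / (N:ℝ) < 2 * Real.log N ^ (1 / 2 - ε) / (N:ℝ) := by
          refine div_lt_div_of_pos_right (by linarith) hN0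
      _ = (N:ℝ) * (2 * Real.log N ^ (1 / 2 - ε) / (N:ℝ) ^ 2) := by
          field_simp
      _ ≤ Z.card * (2 * Real.log N ^ (1 / 2 - ε) / (N:ℝ) ^ 2) := mul_le_mul_of_nonneg_right hcard h8.le

end Pool.Agent.H362.MW
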